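import Pool.Agent.Work.MP_943409_an_helper29.Final
import Pool.Agent.Work.MP_943409_an_helper29.B
import Pool.Agent.Work.MP_943409_an_helper29.HSb
import Pool.Agent.Work.MP_943409_an_helper29.YSYL
import Pool.Agent.Work.MP_943409_an_helper53.KER
import Pool.Agent.Work.MP_943409_an_helper53.MOD
import Pool.Agent.Work.MP_943409_an_helper80.LYA
import Pool.Agent.Work.MP_943409_an_helper80.M12
import Pool.Agent.Work.MP_943409_an_helper80.M34
import Pool.Agent.Work.MP_943409_an_helper80.M5
import Pool.Agent.Work.MP_943409_an_helper82.P4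
import Pool.Agent.Work.MP_943409_an_helper82.P6

/-!
# MP_943409_an: iterated Aluthge transforms of `C_σ` need not converge strongly

For every `0 < a < 1` there is a weighted Hardy space `H²(β)` on which the composition operators
with symbols `φ(z) = a z + (1 - a)` and `σ(z) = a z / (-(1 - a) z + 1)` are bounded, and on which
the iterated Aluthge transforms of `C_σ` do not converge in the strong operator topology.
-/

open Complex Filter Topology

namespace Pool.Agent.Results.MP_943409_an.NoStrongLimit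

open Aluthge

/-- Bounded operators on `ℓ²(ℕ)`. -/
abbrev Op : Type := L2N →L[ℂ] L2N

/-- `A` is a sequence of iterated Aluthge transforms of `T`. -/
def IsIterates (T : Op) (A : ℕ → Op) : Prop :=
  A 0 = T ∧ ∀ n, IsAluthge (A n) (A (n + 1))

/-- `A` converges in the strong operator topology to some bounded operator. -/
def HasStrongLimit (A : ℕ → Op) : Prop :=
  ∃ S : Op, ∀ x : L2N, Tendsto (fun n => A n x) atTop (𝓝 (S x))

theorem result (a : ℝ) (ha : 0 < a) (ha1 : a < 1) :
    ∃ β : ℕ → ℝ, IsWeight β ∧ ∃ Cphi Csig : Op,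
      IsCompOp β (phi a) Cphi ∧ IsCompOp β (sigma a) Csig ∧
      (∃ A : ℕ → Op, IsIterates Csig A) ∧
      ∀ A : ℕ → Op, IsIterates Csig A → ¬ HasStrongLimit A := by
  have hS : Stmt_S := stmt_S stmt_P1 stmt_P2
  have hKER : Stmt_KER := stmt_KER stmt_L
  have hHP : Stmt_HP := stmt_HP hS stmt_HS stmt_L stmt_LYA stmt_SYL hKER
  have hB : Stmt_B := stmt_B stmt_P3 stmt_P5 stmt_M1 stmt_M2
  obtain ⟨β, hβ, Cphi, Csig, h1, h2, h3, h4⟩ := stmt_Final stmt_P1 stmt_P4 stmt_P7 stmt_L hHP
    stmt_M3 stmt_M4 stmt_M5 (stmt_MOD stmt_L stmt_M1) hB a ha ha1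
  exact ⟨β, hβ, Cphi, Csig, h1, h2, h3, fun A hA hlim => h4 A hA.1 hA.2 hlim⟩

end Pool.Agent.Results.MP_943409_an.NoStrongLimit
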